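import Pool.Agent.helper23.CS.Spec2

/-!
# Project cs, row BRA (spin flip symmetry)
-/

open Finset Filter Topology MeasureTheory

namespace CS
open CU

/-- the flip of all spins -/
def BRA_flip (V : Type) : Equiv.Perm (V → Bool) :=
  Function.Involutive.toPerm (fun σ x => !σ x) (fun σ => by funext x; simp)

lemma BRA_sg (b : Bool) : sg (!b) = -sg b := by
  cases b <;> simp [sg]

lemma BRA_wt (d n : ℕ) (β : ℝ) (σ : Conf d (n + 3)) : wt β 0 (BRA_flip _ σ) = wt β 0 σ := by
  unfold wt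
  have e : ∀ (x : Site d (n + 3)), sg (BRA_flip _ σ x) = - sg (σ x) := fun x => BRA_sg (σ x)
  simp only [e, neg_mul_neg, zero_mul, add_zero]

lemma BRA_cw (d n : ℕ) (β : ℝ) (A : Finset (Site d (n + 3))) (σ : Conf d (n + 3)) :
    CWM.cw (wt β 0 : Conf d (n + 3) → ℝ) A false (BRA_flip _ σ) = CWM.cw (wt β 0 : Conf d (n + 3) → ℝ) A true σ := by
  unfold CWM.cw
  rw [BRA_wt]
  have e : (∀ x, x ∉ A → BRA_flip _ σ x = false) ↔ (∀ x, x ∉ A → σ x = true) := by
    have e1 : ∀ x, (BRA_flip (Site d (n + 3)) σ x = false) ↔ σ x = true := by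
      intro x
      show (!σ x) = false ↔ σ x = true
      simp
    simp only [e1]
  rw [propext e]

lemma BRA_ind (b : Bool) : CWM.ind (b = true) = (1 + sg b) / 2 := by
  cases b <;> simp [CWM.ind, sg]

theorem BRA : BRA_stmt := by
  intro d n β A x
  unfold CWM.dl CWM.av
  set W : Conf d (n + 3) → ℝ := wt β 0 with hW
  have h1 : ∑ σ, CWM.cw W A false σ = ∑ σ, CWM.cw W A true σ := by
    rw [← Equiv.sum_comp (BRA_flip _) (fun σ => CWM.cw W A false σ)]
    exact Finset.sum_congr rfl fun σ _ => BRA_cw d n β A σ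
  have h2 : ∑ σ, CWM.cw W A false σ * sg (σ x) = - ∑ σ, CWM.cw W A true σ * sg (σ x) := by
    rw [← Equiv.sum_comp (BRA_flip _) (fun σ => CWM.cw W A false σ * sg (σ x)), ← Finset.sum_neg_distrib]
    refine Finset.sum_congr rfl fun σ _ => ?_
    have e1 : CWM.cw W A false (BRA_flip _ σ) = CWM.cw W A true σ := BRA_cw d n β A σ
    have e2 : sg (BRA_flip _ σ x) = - sg (σ x) := BRA_sg (σ x)
    rw [e1, e2]; ring
  have h3 : ∀ b : Bool, ∑ σ, CWM.cw W A b σ * CWM.ind (σ x = true) =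
      (∑ σ, CWM.cw W A b σ + ∑ σ, CWM.cw W A b σ * sg (σ x)) / 2 := by
    intro b
    rw [← Finset.sum_add_distrib, Finset.sum_div]
    refine Finset.sum_congr rfl fun σ _ => ?_
    rw [BRA_ind]; ring
  rw [h3 true, h3 false, h1, h2]
  ring

end CS
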